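import Mathlib
import Pool.Agent.N818.SN.Stm
import Pool.Agent.N482.SL.NPcore
import Pool.Agent.N402.SL.SP0

/-!
# Project SN (helper818), parts NP and SP: the local conditions at `p > 3` (helper592)

After helper482's and helper402's files for project SL (`Pool.Agent.N482.SL.NP`,
`Pool.Agent.N402.SL.SP0`).
-/

set_option autoImplicit false

namespace Pool.Agent.N592.SN

open PadicInt
open Pool.Agent.Z702 (LocI)
open Pool.Agent.N818.SN (LK S_NP S_SP)
open Pool.Agent.N482.SL (norm_unit norm_sqf par sq_near_one norm_lt_of_le norm_int_le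
  toZMod_eq_zero)
open Pool.Agent.N402.SL (sqQ int_ne)

section

variable {p : ℕ} [hp : Fact p.Prime]

/-! The next three lemmas are copied from helper482's file `Pool.Agent.N482.SL.NP`. -/

/-- if `c ≠ 0` mod `p` and `c d` is a square in `ℚ_p`, `d` squarefree, then `p ∤ d` and `c d` is a
square modulo `p` -/
theorem red {d c : ℤ} (hd : Squarefree d) (hc : ¬ (p : ℤ) ∣ c)
    (h : IsSquare (((c * d : ℤ) : ℤ) : ℚ_[p])) :
    ¬ (p : ℤ) ∣ d ∧ IsSquare ((c * d : ℤ) : ZMod p) := by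
  obtain ⟨s, hs⟩ := h
  have h1 : ‖s‖ ^ 2 = ‖(d : ℚ_[p])‖ := by
    rw [sq, ← norm_mul, ← hs]
    push_cast
    rw [norm_mul, norm_unit hc, one_mul]
  have h2 : ¬ (p : ℤ) ∣ d := by
    intro hpd
    rw [norm_sqf hd hpd] at h1
    exact absurd (par h1) (by decide)
  refine ⟨h2, ?_⟩
  rw [norm_unit h2] at h1
  have h3 : ‖s‖ = 1 := (pow_eq_one_iff_of_nonneg (norm_nonneg s) two_ne_zero).1 h1
  obtain ⟨w, hw⟩ : ∃ w : ℤ_[p], (w : ℚ_[p]) = s := ⟨⟨s, h3.le⟩, rfl⟩
  refine ⟨toZMod w, ?_⟩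
  have h4 : (((c * d : ℤ) : ℤ) : ℤ_[p]) = w * w := by
    apply PadicInt.ext
    push_cast
    rw [hw]
    push_cast at hs
    exact hs
  have h5 := congrArg toZMod h4
  rw [map_mul, map_intCast] at h5
  exact h5

/-- the product of two nonsquares is a square -/
theorem mul_sq {a b : ZMod p} (ha : ¬ IsSquare a) (hb : ¬ IsSquare b) : IsSquare (a * b) := by
  have ha0 : a ≠ 0 := by
    rintro rfl
    exact ha (IsSquare.zero)
  have hb0 : b ≠ 0 := by
    rintro rfl
    exact hb (IsSquare.zero)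
  have h1 := (quadraticChar_neg_one_iff_not_isSquare (F := ZMod p) (a := a)).2 ha
  have h2 := (quadraticChar_neg_one_iff_not_isSquare (F := ZMod p) (a := b)).2 hb
  rw [← quadraticChar_one_iff_isSquare (mul_ne_zero ha0 hb0), map_mul, h1, h2]
  norm_num

theorem sq_of_mul {a b : ZMod p} (ha : IsSquare a) (ha0 : a ≠ 0) (h : IsSquare (a * b)) :
    IsSquare b := by
  obtain ⟨u, hu⟩ := ha
  obtain ⟨v, hv⟩ := h
  have hu0 : u ≠ 0 := by
    rintro rfl
    exact ha0 (by rw [hu, mul_zero])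
  refine ⟨v / u, ?_⟩
  field_simp
  rw [hu] at hv
  linear_combination hv

theorem core (h2 : p ≠ 2) {α n d : ℤ} (hc : ¬ (p : ℤ) ∣ α ^ 2 - 4) (hn : Squarefree n)
    (hd : Squarefree d) {X Y r : ℚ_[p]} (hX : X ≠ 0)
    (h : Y ^ 2 = X ^ 3 - 2 * (α * n) * X ^ 2 + ((α : ℚ_[p]) ^ 2 - 4) * n ^ 2 * X)
    (hr : X = d * r ^ 2) :
    IsSquare (d : ℚ_[p]) ∨ IsSquare (((((α ^ 2 - 4) * d : ℤ) : ℤ) : ℚ_[p])) ∨
      (¬ (p : ℤ) ∣ n ∧ ¬ (p : ℤ) ∣ d) ∨
      ((p : ℤ) ∣ n ∧ (p : ℤ) ∣ d ∧ ∃ x : ZMod p, (x = α + 2 ∨ x = α - 2) ∧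
        ∀ n' d' : ℤ, n = p * n' → d = p * d' → IsSquare (((n' * d' : ℤ) : ZMod p) * x)) := by
  have hn0 : (n : ℚ_[p]) ≠ 0 := by exact_mod_cast hn.ne_zero
  have hd0 : (d : ℚ_[p]) ≠ 0 := by exact_mod_cast hd.ne_zero
  have hr0 : r ≠ 0 := by
    rintro rfl
    apply hX
    rw [hr]
    ring
  have hp0 : (0 : ℝ) < p := by exact_mod_cast hp.out.pos
  obtain ⟨x, hx⟩ : ∃ x : ℚ_[p], X = n * x := ⟨X / n, by field_simp⟩
  have hx0 : x ≠ 0 := by
    rintro rfl
    exact hX (by rw [hx, mul_zero])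
  obtain ⟨c, hcdef⟩ : ∃ c : ℤ, c = α ^ 2 - 4 := ⟨_, rfl⟩
  have hcQ : (c : ℚ_[p]) = (α : ℚ_[p]) ^ 2 - 4 := by
    rw [hcdef]
    push_cast
    ring
  rw [← hcdef] at hc ⊢
  rw [← hcQ] at h
  have hY : Y ^ 2 = n ^ 3 * x * (x ^ 2 - 2 * α * x + c) := by
    rw [h, hx]
    ring
  have hcn : ‖(c : ℚ_[p])‖ = 1 := norm_unit hc
  have hc0 : (c : ℚ_[p]) ≠ 0 := by
    intro h0
    rw [h0, norm_zero] at hcn
    norm_num at hcn
  have hα : ‖(2 * α : ℚ_[p])‖ ≤ 1 := by
    have := norm_int_le (p := p) (2 * α)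
    push_cast at this
    exact this
  rcases lt_trichotomy ‖x‖ 1 with hlt | heq | hgt
  · -- small
    right
    left
    obtain ⟨s, hs0, hs⟩ := sq_near_one h2 (z := (x ^ 2 - 2 * α * x + c) / c) (by
      have e1 : (x ^ 2 - 2 * α * x + c) / c - 1 = (x ^ 2 + (-(2 * α * x))) / c := by
        field_simp
        ring
      rw [e1, norm_div, hcn, div_one]
      apply norm_lt_of_le
      · rw [norm_pow]
        have := norm_nonneg x
        nlinarith
      · rw [norm_neg, norm_mul]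
        have := norm_nonneg x
        nlinarith)
    have e2 : x ^ 2 - 2 * α * x + c = c * s ^ 2 := by
      rw [div_eq_iff hc0] at hs
      rw [hs]
      ring
    refine ⟨Y / (n * s * r), ?_⟩
    have e3 : Y ^ 2 = (n * s * r) ^ 2 * (c * d) := by
      rw [hY, e2]
      have e4 : (n : ℚ_[p]) * x = d * r ^ 2 := by rw [← hx, hr]
      calc (n : ℚ_[p]) ^ 3 * x * (c * s ^ 2) = c * n ^ 2 * s ^ 2 * (n * x) := by ring
        _ = _ := by rw [e4]; ring
    push_cast
    field_simp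
    rw [e3]
    ring
  · -- unit
    right
    right
    have hXn : ‖(d : ℚ_[p])‖ * ‖r‖ ^ 2 = ‖(n : ℚ_[p])‖ := by
      rw [← norm_pow, ← norm_mul, ← hr, hx, norm_mul, heq, mul_one]
    by_cases hpn : (p : ℤ) ∣ n
    · right
      have hnn := norm_sqf hn hpn
      have hq1 : ‖x ^ 2 - 2 * α * x + c‖ < 1 := by
        refine lt_of_le_of_ne ?_ ?_
        · rw [sub_eq_add_neg]
          refine (Padic.nonarchimedean _ _).trans (max_le ((Padic.nonarchimedean _ _).trans
            (max_le ?_ ?_)) hcn.le)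
          · rw [norm_pow, heq, one_pow]
          · rw [norm_neg, norm_mul, heq, mul_one]
            exact hα
        · intro h3
          have h4 : ‖Y‖ ^ 2 = (p : ℝ) ^ (-3 : ℤ) := by
            rw [← norm_pow, hY, norm_mul, norm_mul, norm_pow, hnn, heq, h3, mul_one, mul_one,
              ← zpow_natCast, ← zpow_mul]
            norm_num
          have h5 := par h4
          exact absurd h5 (by decide)
      have hpd : (p : ℤ) ∣ d := by
        by_contra hc
        rw [norm_unit hc, one_mul, hnn] at hXn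
        exact absurd (par hXn) (by decide)
      refine ⟨hpn, hpd, ?_⟩
      have hdn := norm_sqf hd hpd
      have hrn : ‖r‖ = 1 := by
        rw [hdn, hnn] at hXn
        have h3 : ‖r‖ ^ 2 = 1 := by
          have h4 : (p : ℝ) ^ (-1 : ℤ) ≠ 0 := (zpow_pos hp0 _).ne'
          exact mul_left_cancel₀ h4 (by rw [hXn, mul_one])
        exact (pow_eq_one_iff_of_nonneg (norm_nonneg r) two_ne_zero).1 h3
      obtain ⟨x', hx'⟩ : ∃ w : ℤ_[p], (w : ℚ_[p]) = x := ⟨⟨x, heq.le⟩, rfl⟩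
      obtain ⟨r', hr'⟩ : ∃ w : ℤ_[p], (w : ℚ_[p]) = r := ⟨⟨r, hrn.le⟩, rfl⟩
      have hq : (toZMod x' - (α + 2)) * (toZMod x' - (α - 2)) = 0 := by
        have h3 : toZMod (x' ^ 2 - ((2 * α : ℤ) : ℤ_[p]) * x' + ((c : ℤ) : ℤ_[p])) = 0 := by
          rw [toZMod_eq_zero, PadicInt.norm_def]
          push_cast
          rw [hx']
          exact hq1
        rw [map_add, map_sub, map_mul, map_pow, map_intCast, map_intCast, hcdef] at h3
        push_cast at h3
        linear_combination h3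
      refine ⟨toZMod x', ?_, ?_⟩
      · rcases mul_eq_zero.1 hq with h3 | h3
        · exact Or.inl (sub_eq_zero.1 h3)
        · exact Or.inr (sub_eq_zero.1 h3)
      intro n' d' hn' hd'
      have h3 : ((n' : ℤ) : ZMod p) * toZMod x' = (d' : ZMod p) * toZMod r' ^ 2 := by
        have h4 : (n' : ℤ_[p]) * x' = d' * r' ^ 2 := by
          have h5 : (n : ℚ_[p]) * x = d * r ^ 2 := by rw [← hx, hr]
          rw [hn', hd', ← hx', ← hr'] at h5
          push_cast at h5
          have hp0' : (p : ℚ_[p]) ≠ 0 := by exact_mod_cast hp.out.ne_zero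
          have h6 : (n' : ℚ_[p]) * x' = d' * (r' : ℚ_[p]) ^ 2 := by
            apply mul_left_cancel₀ hp0'
            linear_combination h5
          apply PadicInt.ext
          push_cast
          exact h6
        have h5 := congrArg toZMod h4
        simpa using h5
      refine ⟨(d' : ZMod p) * toZMod r', ?_⟩
      push_cast
      linear_combination (d' : ZMod p) * h3
    · left
      refine ⟨hpn, ?_⟩
      intro hpd
      rw [norm_sqf hd hpd, norm_unit hpn] at hXn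
      have h3 : ‖r‖ ^ 2 = (p : ℝ) ^ (1 : ℤ) := by
        rw [zpow_neg_one] at hXn
        rw [zpow_one]
        field_simp at hXn
        exact hXn
      exact absurd (par h3) (by decide)
  · -- large
    left
    obtain ⟨s, hs0, hs⟩ := sq_near_one h2 (z := (x ^ 2 - 2 * α * x + c) / x ^ 2) (by
      have e1 : (x ^ 2 - 2 * α * x + c) / x ^ 2 - 1 = -(2 * α / x) + c / x ^ 2 := by
        field_simp
        ring
      rw [e1]
      have hx1 : 0 < ‖x‖ := by linarith
      apply norm_lt_of_le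
      · rw [norm_neg, norm_div, div_lt_one hx1]
        linarith
      · rw [norm_div, norm_pow, hcn, div_lt_one (by positivity)]
        nlinarith)
    have e2 : x ^ 2 - 2 * α * x + c = x ^ 2 * s ^ 2 := by
      rw [div_eq_iff (pow_ne_zero 2 hx0)] at hs
      rw [hs]
      ring
    refine ⟨Y / (X * s * r), ?_⟩
    have e3 : Y ^ 2 = (X * s * r) ^ 2 * d := by
      rw [hY, e2]
      calc (n : ℚ_[p]) ^ 3 * x * (x ^ 2 * s ^ 2) = (n * x) ^ 2 * s ^ 2 * (n * x) := by ring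
        _ = X ^ 2 * s ^ 2 * X := by rw [← hx]
        _ = X ^ 2 * s ^ 2 * (d * r ^ 2) := by rw [← hr]
        _ = _ := by ring
    field_simp
    rw [e3]
    ring

theorem two_three (h2 : p ≠ 2) (h3 : p ≠ 3) : ((2 : ZMod p) ≠ 0) ∧ ((3 : ZMod p) ≠ 0) := by
  constructor
  · intro h0
    have : ((2 : ℕ) : ZMod p) = 0 := by exact_mod_cast h0
    rw [ZMod.natCast_eq_zero_iff] at this
    exact h2 ((Nat.prime_dvd_prime_iff_eq hp.out Nat.prime_two).1 this)
  · intro h0
    have : ((3 : ℕ) : ZMod p) = 0 := by exact_mod_cast h0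
    rw [ZMod.natCast_eq_zero_iff] at this
    exact h3 ((Nat.prime_dvd_prime_iff_eq hp.out Nat.prime_three).1 this)

theorem c_ne (h2 : p ≠ 2) (h3 : p ≠ 3) {α : ℤ} (hα : α = 1 ∨ α = -14) :
    ((α ^ 2 - 4 : ℤ) : ZMod p) ≠ 0 := by
  obtain ⟨h2', h3'⟩ := two_three h2 h3
  rcases hα with rfl | rfl
  · have e : (((1 : ℤ) ^ 2 - 4 : ℤ) : ZMod p) = -3 := by
      push_cast
      ring
    rw [e]
    exact neg_ne_zero.2 h3'
  · have e : (((-14 : ℤ) ^ 2 - 4 : ℤ) : ZMod p) = 3 * 2 ^ 6 := by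
      push_cast
      ring
    rw [e]
    exact mul_ne_zero h3' (pow_ne_zero 6 h2')

theorem c_dvd (h2 : p ≠ 2) (h3 : p ≠ 3) {α : ℤ} (hα : α = 1 ∨ α = -14) :
    ¬ (p : ℤ) ∣ α ^ 2 - 4 := by
  rw [← ZMod.intCast_zmod_eq_zero_iff_dvd]
  exact c_ne h2 h3 hα

/-- `-(α ± 2)` is a square if `α² - 4` is one -/
theorem roots_sq (h2 : p ≠ 2) (h3 : p ≠ 3) {α : ℤ} (hα : α = 1 ∨ α = -14)
    (hc : IsSquare ((α ^ 2 - 4 : ℤ) : ZMod p)) {x : ZMod p} (hx : x = α + 2 ∨ x = α - 2) :
    IsSquare (-x) ∧ x ≠ 0 := by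
  obtain ⟨h2', h3'⟩ := two_three h2 h3
  obtain ⟨u, hu⟩ := hc
  rcases hα with rfl | rfl <;> rcases hx with rfl | rfl <;> push_cast at hu ⊢
  · refine ⟨⟨u, ?_⟩, ?_⟩
    · rw [← hu]; ring
    · have e : (1 + 2 : ZMod p) = 3 := by ring
      rw [e]
      exact h3'
  · refine ⟨⟨1, ?_⟩, ?_⟩
    · ring
    · have e : (1 - 2 : ZMod p) = -1 := by ring
      rw [e]
      exact neg_ne_zero.2 one_ne_zero
  · refine ⟨⟨u / 4, ?_⟩, ?_⟩
    · have h4 : (4 : ZMod p) ≠ 0 := by
        have e : (4 : ZMod p) = 2 ^ 2 := by norm_num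
        rw [e]
        exact pow_ne_zero 2 h2'
      field_simp
      rw [← pow_two] at hu
      rw [← hu]
      ring
    · have e : (-14 + 2 : ZMod p) = -(3 * 2 ^ 2) := by ring
      rw [e]
      exact neg_ne_zero.2 (mul_ne_zero h3' (pow_ne_zero 2 h2'))
  · refine ⟨⟨4, ?_⟩, ?_⟩
    · ring
    · have e : (-14 - 2 : ZMod p) = -(2 ^ 4) := by ring
      rw [e]
      exact neg_ne_zero.2 (pow_ne_zero 4 h2')

end

/-- **SN-NP.** -/
theorem t_NP : S_NP := by
  intro p hp α n d h2 h3 hα hn hd hLK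
  have hcd := c_dvd (p := p) h2 h3 hα
  have hcn := c_ne (p := p) h2 h3 hα
  have hn0 : (n : ℚ_[p]) ≠ 0 := by exact_mod_cast hn.ne_zero
  have k1 : IsSquare (d : ℚ_[p]) → ¬ (p : ℤ) ∣ d ∧ IsSquare ((d : ℤ) : ZMod p) := by
    intro h
    have h3 := red (p := p) (d := d) (c := 1) hd (by
      intro h4
      have h5 : p ∣ 1 := by exact_mod_cast h4
      exact hp.out.one_lt.ne' (Nat.dvd_one.1 h5)) (by simpa using h)
    simpa using h3
  have k2 : IsSquare (((((α ^ 2 - 4) * d : ℤ) : ℤ) : ℚ_[p])) →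
      ¬ (p : ℤ) ∣ d ∧ IsSquare (((α ^ 2 - 4) * d : ℤ) : ZMod p) := fun h => red hd hcd h
  have key : (¬ (p : ℤ) ∣ d ∧ IsSquare ((d : ℤ) : ZMod p)) ∨
      (¬ (p : ℤ) ∣ d ∧ IsSquare (((α ^ 2 - 4) * d : ℤ) : ZMod p)) ∨
      (¬ (p : ℤ) ∣ n ∧ ¬ (p : ℤ) ∣ d) ∨
      ((p : ℤ) ∣ n ∧ (p : ℤ) ∣ d ∧ ∃ x : ZMod p, (x = α + 2 ∨ x = α - 2) ∧
        ∀ n' d' : ℤ, n = p * n' → d = p * d' → IsSquare (((n' * d' : ℤ) : ZMod p) * x)) := by
    rcases hLK with h | ⟨u, hu⟩ | ⟨X, Y, r, hX, hY, hr⟩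
    · exact Or.inl (k1 h)
    · refine Or.inr (Or.inl (k2 ⟨u / n, ?_⟩))
      push_cast at hu ⊢
      field_simp
      linear_combination hu
    · rcases core h2 hcd hn hd hX (by rw [hY]; push_cast; ring) hr with h | h | h | h
      · exact Or.inl (k1 h)
      · exact Or.inr (Or.inl (k2 h))
      · exact Or.inr (Or.inr (Or.inl h))
      · exact Or.inr (Or.inr (Or.inr h))
  refine ⟨?_, ?_⟩
  · intro h
    rcases key with k | k | k | k
    · exact k.1
    · exact k.1
    · exact k.2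
    · exact absurd k.1 h
  · intro hpn hcs
    refine ⟨?_, ?_⟩
    · intro hpd
      rcases key with k | k | k | k
      · exact k.2
      · have h5 := k.2
        push_cast at h5 hcs hcn
        exact sq_of_mul hcs hcn h5
      · exact absurd hpn k.1
      · exact absurd k.2.1 hpd
    · intro n' d' hn' hd'
      have hpd : (p : ℤ) ∣ d := ⟨d', hd'⟩
      rcases key with k | k | k | k
      · exact absurd hpd k.1
      · exact absurd hpd k.1
      · exact absurd hpn k.1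
      · obtain ⟨x, hx, h5⟩ := k.2.2
        have h6 := h5 n' d' hn' hd'
        obtain ⟨h7, h8⟩ := roots_sq h2 h3 hα hcs hx
        refine sq_of_mul h7 (neg_ne_zero.2 h8) ?_
        have h9 : (-x) * ((-n' * d' : ℤ) : ZMod p) = ((n' * d' : ℤ) : ZMod p) * x := by
          push_cast
          ring
        rw [h9]
        exact h6

section

variable {p : ℕ} [hp : Fact p.Prime]

/-- squares are in the local image -/
theorem loc_sq (h2 : p ≠ 2) {α n d : ℤ} (hα : α = 1 ∨ α = -14) (hn : n ≠ 0)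
    (hdz : (d : ZMod p) ≠ 0) (hd : IsSquare (d : ZMod p)) :
    LocI ℚ_[p] (α * n) (n ^ 2) d := by
  have hd0 : d ≠ 0 := by
    rintro rfl
    exact hdz (by simp)
  have hab : (α * n) ^ 2 - 4 * n ^ 2 ≠ 0 := by
    have h5 : (α * n) ^ 2 - 4 * n ^ 2 = (α ^ 2 - 4) * n ^ 2 := by ring
    rw [h5]
    refine mul_ne_zero ?_ (pow_ne_zero 2 hn)
    rcases hα with rfl | rfl <;> norm_num
  exact (Pool.Agent.Z864.LQ.t_LQ _ _ d (pow_ne_zero 2 hn) hab hd0).1 p
    (Or.inl (sqQ h2 d ((quadraticChar_one_iff_isSquare hdz).2 hd)))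

/-- `α² - 4` times squares are in the local image -/
theorem loc_sqc (h2 : p ≠ 2) {α n d : ℤ} (hα : α = 1 ∨ α = -14) (hn : n ≠ 0)
    (hdz : (d : ZMod p) ≠ 0) (hcz : ((α ^ 2 - 4 : ℤ) : ZMod p) ≠ 0)
    (hd : IsSquare (((α ^ 2 - 4) * d : ℤ) : ZMod p)) :
    LocI ℚ_[p] (α * n) (n ^ 2) d := by
  have hd0 : d ≠ 0 := by
    rintro rfl
    exact hdz (by simp)
  have hab : (α * n) ^ 2 - 4 * n ^ 2 ≠ 0 := by
    have h5 : (α * n) ^ 2 - 4 * n ^ 2 = (α ^ 2 - 4) * n ^ 2 := by ring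
    rw [h5]
    refine mul_ne_zero ?_ (pow_ne_zero 2 hn)
    rcases hα with rfl | rfl <;> norm_num
  refine (Pool.Agent.Z864.LQ.t_LQ _ _ d (pow_ne_zero 2 hn) hab hd0).1 p (Or.inr ?_)
  obtain ⟨v, hv⟩ := sqQ h2 ((α ^ 2 - 4) * d)
    ((quadraticChar_one_iff_isSquare (by rw [Int.cast_mul]; exact mul_ne_zero hcz hdz)).2 hd)
  refine ⟨v * n, ?_⟩
  push_cast at hv ⊢
  linear_combination (n : ℚ_[p]) ^ 2 * hv

/-- `α² - 4` is not a square modulo `p`: every unit is a square or `α² - 4` times a square -/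
theorem loc_dich (h2 : p ≠ 2) {α n d : ℤ} (hα : α = 1 ∨ α = -14) (hn : n ≠ 0)
    (hdz : (d : ZMod p) ≠ 0) (hcz : ((α ^ 2 - 4 : ℤ) : ZMod p) ≠ 0)
    (hcs : ¬ IsSquare ((α ^ 2 - 4 : ℤ) : ZMod p)) :
    LocI ℚ_[p] (α * n) (n ^ 2) d := by
  by_cases hd : IsSquare (d : ZMod p)
  · exact loc_sq h2 hα hn hdz hd
  · refine loc_sqc h2 hα hn hdz hcz ?_
    rw [Int.cast_mul]
    exact mul_sq hcs hd

/-- the points of order two -/
theorem loc_tors (h2 : p ≠ 2) {α n d n' d' x : ℤ} (hn : n ≠ 0) (hd : d ≠ 0)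
    (hn' : n = p * n') (hd' : d = p * d') (hx : x = α + 2 ∨ x = α - 2) (hx0 : x ≠ 0)
    (hz : ((x * n' * d' : ℤ) : ZMod p) ≠ 0)
    (hs : IsSquare ((x * n' * d' : ℤ) : ZMod p)) :
    LocI ℚ_[p] (α * n) (n ^ 2) d := by
  obtain ⟨v, hv⟩ := sqQ h2 (x * n' * d') ((quadraticChar_one_iff_isSquare hz).2 hs)
  have hp0 : (p : ℚ_[p]) ≠ 0 := by exact_mod_cast hp.out.ne_zero
  have hn0 : (n : ℚ_[p]) ≠ 0 := by exact_mod_cast hn
  have hx0' : (x : ℚ_[p]) ≠ 0 := by exact_mod_cast hx0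
  have hd0' : d' ≠ 0 := by
    rintro rfl
    exact hd (by rw [hd', mul_zero])
  have hd0 : (d' : ℚ_[p]) ≠ 0 := by exact_mod_cast hd0'
  refine ⟨x * n, 0, v / d', mul_ne_zero hx0' hn0, ?_, ?_⟩
  · rcases hx with rfl | rfl <;> push_cast <;> ring
  · rw [hn', hd']
    push_cast at hv ⊢
    field_simp
    linear_combination hv

end

/-- **SN-SP.** -/
theorem t_SP : S_SP := by
  intro p hp α n d h2 h3 hα hn hd
  obtain ⟨h2', h3'⟩ := two_three (p := p) h2 h3
  have hcn := c_ne (p := p) h2 h3 hα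
  have hn0 : n ≠ 0 := hn.ne_zero
  have hd0 : d ≠ 0 := hd.ne_zero
  have hnd : ∀ {m m' : ℤ}, Squarefree m → m = p * m' → ¬ (p : ℤ) ∣ m' := by
    rintro m m' hm rfl ⟨j, rfl⟩
    have h1 := hm (p : ℤ) ⟨j, by ring⟩
    have h2 := Int.isUnit_iff.1 h1
    have h3 := hp.out.one_lt
    omega
  have tors : ∀ n' d' : ℤ, n = p * n' → d = p * d' → IsSquare ((-n' * d' : ℤ) : ZMod p) →
      LocI ℚ_[p] (α * n) (n ^ 2) d := by
    intro n' d' hn' hd' hs
    have hnz := int_ne (hnd hn hn')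
    have hdz := int_ne (hnd hd hd')
    refine loc_tors h2 (x := α - 2) hn0 hd0 hn' hd' (Or.inr rfl) ?_ ?_ ?_
    · rcases hα with rfl | rfl <;> norm_num
    · rw [Int.cast_mul, Int.cast_mul]
      refine mul_ne_zero (mul_ne_zero ?_ hnz) hdz
      rcases hα with rfl | rfl
      · have e : (((1 : ℤ) - 2 : ℤ) : ZMod p) = -1 := by
          push_cast
          ring
        rw [e]
        exact neg_ne_zero.2 one_ne_zero
      · have e : (((-14 : ℤ) - 2 : ℤ) : ZMod p) = -(2 ^ 4) := by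
          push_cast
          ring
        rw [e]
        exact neg_ne_zero.2 (pow_ne_zero 4 h2')
    · obtain ⟨u, hu⟩ := hs
      push_cast at hu
      rcases hα with rfl | rfl
      · refine ⟨u, ?_⟩
        push_cast
        linear_combination hu
      · refine ⟨4 * u, ?_⟩
        push_cast
        linear_combination 16 * hu
  refine ⟨?_, ?_, ?_, tors⟩
  · intro hpn hpd
    have hdz := int_ne hpd
    have hnz := int_ne hpn
    by_cases hds : IsSquare (d : ZMod p)
    · exact loc_sq h2 hα hn0 hdz hds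
    · by_cases hcs : IsSquare ((α ^ 2 - 4 : ℤ) : ZMod p)
      · refine Pool.Agent.Z894.LG.aux p _ _ d h2 ?_ ?_ hd0
          (quadraticChar_neg_one_iff_not_isSquare.2 hds)
        · push_cast
          exact pow_ne_zero 2 hnz
        · have e : (((α * n : ℤ) : ZMod p)) ^ 2 - 4 * (((n ^ 2 : ℤ)) : ZMod p) =
              ((α ^ 2 - 4 : ℤ) : ZMod p) * (n : ZMod p) ^ 2 := by
            push_cast
            ring
          rw [e, map_mul, (quadraticChar_one_iff_isSquare hcn).2 hcs,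
            quadraticChar_sq_one' hnz, one_mul]
      · exact loc_dich h2 hα hn0 hdz hcn hcs
  · intro hpn hcs
    by_cases hpd : (p : ℤ) ∣ d
    · obtain ⟨n', hn'⟩ := hpn
      obtain ⟨d', hd'⟩ := hpd
      by_cases hs : IsSquare ((-n' * d' : ℤ) : ZMod p)
      · exact tors n' d' hn' hd' hs
      · have hnz := int_ne (hnd hn hn')
        have hdz := int_ne (hnd hd hd')
        refine loc_tors h2 (x := α + 2) hn0 hd0 hn' hd' (Or.inl rfl) ?_ ?_ ?_
        · rcases hα with rfl | rfl <;> norm_num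
        · rw [Int.cast_mul, Int.cast_mul]
          refine mul_ne_zero (mul_ne_zero ?_ hnz) hdz
          rcases hα with rfl | rfl
          · have e : (((1 : ℤ) + 2 : ℤ) : ZMod p) = 3 := by
              push_cast
              ring
            rw [e]
            exact h3'
          · have e : (((-14 : ℤ) + 2 : ℤ) : ZMod p) = -(3 * 2 ^ 2) := by
              push_cast
              ring
            rw [e]
            exact neg_ne_zero.2 (mul_ne_zero h3' (pow_ne_zero 2 h2'))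
        · obtain ⟨u, hu⟩ := mul_sq hcs hs
          rcases hα with rfl | rfl
          · refine ⟨u, ?_⟩
            push_cast at hu ⊢
            linear_combination hu
          · refine ⟨u / 4, ?_⟩
            have h4 : (4 : ZMod p) ≠ 0 := by
              have e : (4 : ZMod p) = 2 ^ 2 := by norm_num
              rw [e]
              exact pow_ne_zero 2 h2'
            push_cast at hu ⊢
            field_simp
            linear_combination hu
    · exact loc_dich h2 hα hn0 (int_ne hpd) hcn hcs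
  · intro hpd hds
    exact loc_sq h2 hα hn0 (int_ne hpd) hds

end Pool.Agent.N592.SN
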